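import Pool.Agent.helper46.ESM.Spec
import Pool.Agent.helper80.EN.Asm

set_option autoImplicit false

namespace Pool.Agent.helper46.ESM

open Subgroup Pool.Agent.helper80.EN

universe u

lemma SIM_nonab {P : Type u} [Group P] (D : Subgroup P) (hper : ⁅D, D⁆ = D) (K : Subgroup D)
    [K.Normal] (hnt : Nontrivial (D ⧸ K)) : ∃ x y : D ⧸ K, x * y ≠ y * x := by
  by_contra h
  push Not at h
  have h1 : ⁅D, D⁆ ≤ K.map D.subtype := by
    rw [Subgroup.commutator_le]
    intro x hx y hy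
    refine ⟨(⟨x, hx⟩ : D) * ⟨y, hy⟩ * (⟨x, hx⟩ : D)⁻¹ * (⟨y, hy⟩ : D)⁻¹, ?_, rfl⟩
    have h2 : (QuotientGroup.mk' K) ((⟨x, hx⟩ : D) * ⟨y, hy⟩ * (⟨x, hx⟩ : D)⁻¹ * (⟨y, hy⟩ : D)⁻¹) = 1 := by
      have h5 : ∀ u v : D ⧸ K, u * v * u⁻¹ * v⁻¹ = 1 := by
        intro u v
        rw [h u v]
        group
      rw [map_mul, map_mul, map_mul, map_inv, map_inv]
      exact h5 _ _
    exact (QuotientGroup.eq_one_iff _).mp h2
  rw [hper] at h1
  have h3 : ∀ q : D ⧸ K, q = 1 := by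
    intro q
    obtain ⟨d, rfl⟩ := QuotientGroup.mk'_surjective K q
    obtain ⟨k, hk, hkd⟩ := h1 d.2
    have h4 : k = d := Subtype.ext hkd
    subst h4
    exact (QuotientGroup.eq_one_iff _).mpr hk
  obtain ⟨x, y, hxy⟩ := hnt.exists_pair_ne
  exact hxy ((h3 x).trans (h3 y).symm)

lemma SIM_conj_ne {S : Type u} [Group S] (x y : S) (h : x * y ≠ y * x) : (MulAut.conj x : MulAut S) ≠ 1 := by
  intro hc
  apply h
  have h1 : (MulAut.conj x : MulAut S) y = (1 : MulAut S) y := by rw [hc]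
  rw [MulAut.conj_apply, MulAut.one_apply] at h1
  calc x * y = x * y * x⁻¹ * x := by group
    _ = y * x := by rw [h1]

lemma SIM_map_inv {D : Type u} [Group D] (K : Subgroup D) (φ : MulAut D)
    (h : K.map (φ⁻¹ : MulAut D).toMonoidHom = K) : K.map φ.toMonoidHom = K := by
  apply le_antisymm
  · rintro _ ⟨k, hk, rfl⟩
    have hk' : k ∈ K.map (φ⁻¹ : MulAut D).toMonoidHom := by rw [h]; exact hk
    obtain ⟨k', hk', e⟩ := hk'
    have e' : φ⁻¹ k' = k := e
    have : φ.toMonoidHom k = k' := by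
      show φ k = k'
      rw [← e', MulAut.apply_inv_self]
    rw [this]
    exact hk'
  · intro k hk
    have h1 : φ⁻¹ k ∈ K := by
      rw [← h]
      exact ⟨k, hk, rfl⟩
    exact ⟨φ⁻¹ k, h1, MulAut.apply_inv_self _ _ _⟩

/-- Case 1 -/
lemma SIM_case1 {P : Type u} [Group P] (hCR1 : CR1_stmt.{u}) (D : Subgroup P) [D.Normal]
    (K : Subgroup D) [hK : K.Normal] (hS : IsSimpleGroup (D ⧸ K)) (a : P) (ha : RightEngel a)
    (hne : K.map (MulAut.conjNormal a⁻¹ : MulAut D).toMonoidHom ≠ K) (x y : D ⧸ K) :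
    (∃ n, icom y x n = 1) ∧ ∀ l, RightNEngel l a → icom y x l = 1 := by
  obtain ⟨z, hz⟩ := hCR1 D K hK (MulAut.conjNormal a⁻¹ : MulAut D) hS hne x y
  have hB := @Asm.aBAS.{u} P _
  have hcom : D.subtype ((MulAut.conjNormal a⁻¹ : MulAut D) z⁻¹ * z) = com a (z : P) := by
    rw [map_mul]
    show ((MulAut.conjNormal a⁻¹ : MulAut D) z⁻¹ : P) * (z : P) = _
    rw [MulAut.conjNormal_apply]
    unfold com
    simp
  have key : ∀ n, icom a (z : P) (n + 1) = 1 →
      icom ((MulAut.conjNormal a⁻¹ : MulAut D) z⁻¹ * z) z n = 1 := by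
    intro n hn
    apply Subtype.ext
    have h1 := (@Asm.aBAS.{u} D _).2.1 P D.subtype ((MulAut.conjNormal a⁻¹ : MulAut D) z⁻¹ * z) z n
    rw [hcom] at h1
    have h2 := hB.2.2.1 a (z : P) 1 n
    have h3 : icom a (z : P) 1 = com a (z : P) := rfl
    rw [h3, add_comm] at h2
    show D.subtype _ = 1
    rw [h1]
    show icom (com a (z : P)) (z : P) n = 1
    rw [← h2, hn]
  refine ⟨?_, ?_⟩
  · obtain ⟨m, hm⟩ := ha (z : P)
    refine ⟨m + 1, hz m (key m ?_)⟩
    rw [hB.2.2.1 a (z : P) m 1, hm, hB.2.2.2.1]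
  · intro l hl
    rcases l with _ | n
    · exfalso
      apply hne
      have h1 : a = 1 := hl 1
      subst h1
      have h2 : (MulAut.conjNormal (1 : P)⁻¹ : MulAut D) = 1 := by
        rw [inv_one, map_one]
      rw [h2]
      exact Subgroup.map_id K
    · exact hz n (key n (hl (z : P)))

theorem SIM (hRES : RES_stmt.{u}) (hMXN : MXN_stmt.{u}) (hCR1 : CR1_stmt.{u}) (hCR2 : CR2_stmt.{u}) :
    SIM_stmt.{u} := by
  intro P _ T hT hRE hnil hnorm hQ
  have hfg : Group.FG P := ⟨⟨T, hT⟩⟩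
  have hgen : GenRE P := by
    unfold GenRE
    rw [eq_top_iff, ← hT]
    exact Subgroup.closure_mono (fun a ha => hRE a ha)
  obtain ⟨hDfg, hDne, hper⟩ := hRES P hfg hgen hnil hnorm hQ
  generalize nres P = D at *
  have hDFG : Group.FG D := (Group.fg_iff_subgroup_fg D).mpr hDfg
  have hDnt : Nontrivial D := (Subgroup.nontrivial_iff_ne_bot D).mpr hDne
  obtain ⟨K, hK, hS⟩ := hMXN D hDFG hDnt
  have hSFG : Group.FG (D ⧸ K) := QuotientGroup.fg K
  have hnab : ∃ x y : D ⧸ K, x * y ≠ y * x := SIM_nonab D hper K hS.toNontrivial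
  have hsec : IsSec (D ⧸ K) P := ⟨D, K, hK, ⟨MulEquiv.refl _⟩⟩
  by_cases hcase : ∃ a ∈ T, K.map (MulAut.conjNormal a⁻¹ : MulAut D).toMonoidHom ≠ K
  · obtain ⟨a, haT, hne⟩ := hcase
    obtain ⟨s, t, hst⟩ := id hnab
    have hmem : ∀ b ∈ InnExt (D ⧸ K) (MulAut.conj s), ∃ x : D ⧸ K, b = MulAut.conj x := by
      intro b hb
      have h1 : InnExt (D ⧸ K) (MulAut.conj s) ≤ (MulAut.conj : (D ⧸ K) →* MulAut (D ⧸ K)).range := by
        unfold InnExt
        apply sup_le (le_refl _)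
        rw [Subgroup.zpowers_le]
        exact ⟨s, rfl⟩
      obtain ⟨x, hx⟩ := h1 hb
      exact ⟨x, hx.symm⟩
    refine ⟨D ⧸ K, inferInstance, MulAut.conj s, hS, hSFG, hnab, hsec, SIM_conj_ne s t hst, ?_, ?_⟩
    · intro b hb
      obtain ⟨x, rfl⟩ := hmem b hb
      obtain ⟨n, hn⟩ := (SIM_case1 hCR1 D K hS a (hRE a haT) hne x s).1
      refine ⟨n, ?_⟩
      rw [← (@Asm.aBAS.{u} (D ⧸ K) _).2.1 (MulAut (D ⧸ K)) MulAut.conj s x n, hn, map_one]
    · intro l hl b hb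
      obtain ⟨x, rfl⟩ := hmem b hb
      have hn := (SIM_case1 hCR1 D K hS a (hRE a haT) hne x s).2 l (hl a haT)
      rw [← (@Asm.aBAS.{u} (D ⧸ K) _).2.1 (MulAut (D ⧸ K)) MulAut.conj s x l, hn, map_one]
  · push Not at hcase
    have hcase' : ∀ a ∈ (T : Set P), K.map (MulAut.conjNormal a : MulAut D).toMonoidHom = K := by
      intro a ha
      apply SIM_map_inv
      have h1 := hcase a ha
      rwa [map_inv] at h1
    obtain ⟨ρ, hρ⟩ := hCR2 P D K hK (T : Set P) hT hcase'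
    have hρD : ∀ d : D, ρ (d : P) = MulAut.conj (QuotientGroup.mk' K d) := by
      intro d
      apply MulEquiv.ext
      intro q
      obtain ⟨e, rfl⟩ := QuotientGroup.mk'_surjective K q
      rw [hρ, MulAut.conj_apply, ← map_inv, ← map_mul, ← map_mul]
      congr 1
    have hex : ∃ a ∈ T, ρ a ≠ 1 := by
      by_contra hc
      push Not at hc
      have h1 : ρ = 1 := by
        apply MonoidHom.eq_of_eqOn_dense hT
        intro a ha
        exact hc a ha
      obtain ⟨s, t, hst⟩ := id hnab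
      obtain ⟨d, rfl⟩ := QuotientGroup.mk'_surjective K s
      have h2 := hρD d
      rw [h1] at h2
      exact SIM_conj_ne _ t hst h2.symm
    obtain ⟨a, haT, hne⟩ := hex
    have hmem : ∀ b ∈ InnExt (D ⧸ K) (ρ a), ∃ p : P, b = ρ p := by
      intro b hb
      have h1 : InnExt (D ⧸ K) (ρ a) ≤ ρ.range := by
        unfold InnExt
        apply sup_le
        · rintro _ ⟨q, rfl⟩
          obtain ⟨d, rfl⟩ := QuotientGroup.mk'_surjective K q
          exact ⟨(d : P), hρD d⟩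
        · rw [Subgroup.zpowers_le]
          exact ⟨a, rfl⟩
      obtain ⟨x, hx⟩ := h1 hb
      exact ⟨x, hx.symm⟩
    refine ⟨D ⧸ K, inferInstance, ρ a, hS, hSFG, hnab, hsec, hne, ?_, ?_⟩
    · intro b hb
      obtain ⟨p, rfl⟩ := hmem b hb
      obtain ⟨n, hn⟩ := hRE a haT p
      refine ⟨n, ?_⟩
      rw [← (@Asm.aBAS.{u} P _).2.1 (MulAut (D ⧸ K)) ρ a p n, hn, map_one]
    · intro l hl b hb
      obtain ⟨p, rfl⟩ := hmem b hb
      rw [← (@Asm.aBAS.{u} P _).2.1 (MulAut (D ⧸ K)) ρ a p l, hl a haT p, map_one]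

end Pool.Agent.helper46.ESM
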